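import Pool.Agent.MP_3b5bbf_co.Bridge

/-! A table checker for folded checkerboards on the N × N grid, one grid cell per board cell. -/

set_option linter.unusedSimpArgs false

namespace Pool.Agent.MP_3b5bbf_co.Sb

open Set

theorem cell_of_key {κ : V × V} (hκ : IsKey κ) : ∃ c : Cell, c.o = κ.1 ∧ c.p + c.q = κ.2 := by
  obtain ⟨⟨a, b⟩, c, d⟩ := κ
  obtain ⟨h1, h2, h3⟩ := hκ
  dsimp only at h1 h2 h3
  obtain ⟨x, rfl⟩ : ∃ x, a = 2 * x + 1 := ⟨a / 2, by omega⟩
  obtain ⟨y, rfl⟩ : ∃ y, b = 2 * y + 1 := ⟨b / 2, by omega⟩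
  rcases h3 with ⟨rfl, rfl | rfl⟩ | ⟨rfl, rfl | rfl⟩
  · exact ⟨⟨x, y, .n⟩, rfl, by simp only [Cell.p, Cell.q, Prod.mk_add_mk, Prod.mk.injEq]; omega⟩
  · exact ⟨⟨x, y, .s⟩, rfl, by simp only [Cell.p, Cell.q, Prod.mk_add_mk, Prod.mk.injEq]; omega⟩
  · exact ⟨⟨x, y, .e⟩, rfl, by simp only [Cell.p, Cell.q, Prod.mk_add_mk, Prod.mk.injEq]; omega⟩
  · exact ⟨⟨x, y, .w⟩, rfl, by simp only [Cell.p, Cell.q, Prod.mk_add_mk, Prod.mk.injEq]; omega⟩

theorem bridge {N : ℤ} (hN : 0 < N) {k : ℕ} (hk : 0 < k) {φ : V → V} {h : Cell → ℕ}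
    (hv : Valid (Rect 0 N 0 N) φ h)
    (hf : ∀ c, Rect 0 N 0 N c → Box 0 (2 * k) 0 (2 * k) (φ c.o))
    (ht : ∀ c, Rect 0 k 0 k c → ∃ t, Rect 0 N 0 N t ∧ K φ t = K (fun v => v) c ∧
      (∀ b, Rect 0 N 0 N b → K φ b = K φ t → h b ≤ h t) ∧
      ((c.x + c.y) % 2 = 0 → White φ t) ∧ ((c.x + c.y) % 2 = 1 → Black φ t)) :
    ∃ F : FlatFolding, F.Checkerboard k (k / N) := by
  classical
  set R := Rect 0 N 0 N with hR
  have := rect_finite N
  obtain ⟨n, ⟨eqv⟩⟩ := Finite.exists_equiv_fin {c // R c}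
  let cell : Fin n → Cell := fun i => (eqv.symm i).1
  have cm : ∀ i, R (cell i) := fun i => (eqv.symm i).2
  have ci : ∀ i j, cell i = cell j → i = j := fun i j e => eqv.symm.injective (Subtype.ext e)
  have cs : ∀ c, R c → ∃ i, cell i = c := fun c hc => ⟨eqv ⟨c, hc⟩, by simp [cell]⟩
  have gd : ∀ i, Good φ (cell i) := fun i => hv.good _ (cm i)
  have N0 : (0 : ℝ) < N := by exact_mod_cast hN
  set s : ℝ := 1 / (2 * N) with hs'
  have hs : 0 < s := by positivity
  have s1 : 2 * (N : ℝ) * s = 1 := by rw [hs']; field_simp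
  let v : Fin n → Fin 3 → ℂ := fun i => vv s (fun v => v) (cell i)
  choose A A1 A2 using fun i => exists_aff s (gd i)
  let f : ℂ → ℂ := fun z => if hz : ∃ i, z ∈ tri (v i) then A hz.choose z else 0
  have meet : ∀ i j, tri (v i) ∩ tri (v j) ⊆ convexHull ℝ (range (v i) ∩ range (v j)) :=
    fun i j => tri_meet hs (good_id _).1 (good_id _).1
  have fA : ∀ i, ∀ z ∈ tri (v i), f z = A i z := by
    intro i z hz
    have ex : ∃ i, z ∈ tri (v i) := ⟨i, hz⟩
    simp only [f]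
    rw [dif_pos ex]
    have m := meet _ _ ⟨ex.choose_spec, hz⟩
    generalize ex.choose = j at m
    have cv : Convex ℝ ((A j - A i) ⁻¹' {0}) := (convex_singleton 0).affine_preimage _
    have := convexHull_min (t := (A j - A i) ⁻¹' {0}) ?_ cv m
    · simpa [sub_eq_zero] using this
    · rintro _ ⟨⟨a, rfl⟩, b, hb⟩
      have e : lv (fun v => v) (cell i) b = lv (fun v => v) (cell j) a := emb_inj hs hb
      have e1 : A i (v j a) = vv s φ (cell i) b := by rw [← hb]; exact A2 i b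
      have e2 : lv φ (cell i) b = lv φ (cell j) a := by
        have : ∀ c t, lv φ c t = φ (lv (fun v => v) c t) := fun c t => by fin_cases t <;> rfl
        rw [this, this, e]
      simp only [mem_preimage, AffineMap.coe_sub, Pi.sub_apply, mem_singleton_iff, sub_eq_zero]
      rw [e1, A2 j a]
      simp only [vv, e2]
  have fv : ∀ i t, f (v i t) = vv s φ (cell i) t := fun i t => by
    rw [fA i _ (subset_convexHull ℝ _ ⟨t, rfl⟩), A2]
  have fr : ∀ i, f '' range (v i) = range (vv s φ (cell i)) := fun i => by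
    rw [← range_comp]; congr 1; funext t; exact fv i t
  have ft : ∀ i, f '' tri (v i) = tri (vv s φ (cell i)) := fun i => by
    rw [image_congr (fA i)]
    unfold tri
    rw [AffineMap.image_convexHull, ← range_comp]
    congr 2; funext t; exact A2 i t
  have kk : ∀ i j, f '' tri (v i) = f '' tri (v j) ↔ K φ (cell i) = K φ (cell j) := fun i j => by
    rw [ft, ft, tri_eq_iff hs (gd i) (gd j)]
  have cover : ⋃ i, tri (v i) = square 1 := by
    rw [← s1]
    refine Subset.antisymm (iUnion_subset fun i => tri_sub hs (good_id _).1 ?_) fun z hz => ?_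
    · have := (vert_bounds (cm i)).1
      unfold Box; omega
    · obtain ⟨c, hc, hz⟩ := cover_sq hs hN hz
      obtain ⟨i, rfl⟩ := cs c hc
      exact mem_iUnion.2 ⟨i, hz⟩
  have edge : ∀ i i' j j' a b c d, i ≠ i' → j ≠ j' → a ≠ b →
      a ∈ range (v i) ∩ range (v i') → b ∈ range (v i) ∩ range (v i') →
      c ∈ range (v j) ∩ range (v j') → d ∈ range (v j) ∩ range (v j') → f c = f a → f d = f b →
      ∃ e e', cell i' = (cell i).nb e ∧ cell j' = (cell j).nb e' ∧
        eps φ (cell i) e = eps φ (cell j) e' := by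
    intro i i' j j' a b c d n1 n2 n3 ha hb hc hd e1 e2
    have n4 : c ≠ d := by
      intro t
      have := A1 i a b
      rw [← fA i a (subset_convexHull ℝ _ ha.1), ← fA i b (subset_convexHull ℝ _ hb.1), ← e1, ← e2,
        t, dist_self] at this
      exact n3 (dist_eq_zero.1 this.symm)
    obtain ⟨e, t1, t2, p1, rfl, rfl, p2⟩ := adj_of hs (fun t => n1 (ci _ _ t)) n3 ha hb
    obtain ⟨e', u1, u2, q1, rfl, rfl, q2⟩ := adj_of hs (fun t => n2 (ci _ _ t)) n4 hc hd
    refine ⟨e, e', p1, q1, ?_⟩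
    rw [p2, q2, emb_inj hs ((fv j u1).symm.trans (e1.trans (fv i t1))),
      emb_inj hs ((fv j u2).symm.trans (e2.trans (fv i t2)))]
  have c5 : (k : ℝ) / N = 2 * ((k : ℤ) : ℝ) * s := by
    rw [hs']; push_cast; field_simp
  refine ⟨⟨n, v, f, fun i j => h (cell j) < h (cell i), fun i => ?_, cover, fun i j e => ?_, meet,
    fun i z hz w hw => by rw [fA i z hz, fA i w hw, A1], fun i j => ?_, fun i => lt_irrefl _,
    fun i j l _ _ a b => b.trans a, fun i j ne e => ?_, ?_, ?_⟩, ?_, ?_⟩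
  · rw [(cross_vv s _ _).1 (good_id _).2 (good_id _).1]; positivity
  · apply ci
    apply K_id_inj
    rw [← tri_eq_iff hs (good_id _).1 (good_id _).1]
    exact congrArg (convexHull ℝ) e
  · rw [ft, ft, fr, fr]
    exact tri_meet hs (gd i) (gd j)
  · rcases lt_trichotomy (h (cell i)) (h (cell j)) with l | l | l
    · exact Or.inr l
    · exact absurd (ci _ _ (hv.inj _ _ (cm i) (cm j) ((kk i j).1 e) l)) ne
    · exact Or.inl l
  · intro i i' j j' a b c d n1 n2 n3 ha hb hc hd e1 e2 k1 k2 l1 l2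
    obtain ⟨e, e', p, q, he⟩ := edge i i' j j' a b c d n1 n2 n3 ha hb hc hd e1 e2
    rw [kk] at k1 k2 ⊢
    rw [p] at k1 l2 ⊢
    rw [q]
    exact hv.taco _ e _ e' (cm i) (p ▸ cm i') (cm j) (q ▸ cm j') he k1 k2 l1 l2
  · intro i i' j j' a b c d n1 n2 n3 ha hb hc hd e1 e2 k1 k2 k3 l1
    obtain ⟨e, e', p, q, he⟩ := edge i i' j j' a b c d n1 n2 n3 ha hb hc hd e1 e2
    rw [Ne, kk] at k1
    rw [kk] at k2 k3
    rw [p] at k1 k3 ⊢
    rw [q] at k3 ⊢
    exact hv.tort _ e _ e' (cm i) (p ▸ cm i') (cm j) (q ▸ cm j') he k1 k2 k3 l1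
  · change f '' square 1 = _
    rw [← cover, image_iUnion, c5]
    refine Subset.antisymm (iUnion_subset fun i => ?_) fun z hz => ?_
    · rw [ft]
      exact tri_sub hs (gd i) (hf _ (cm i))
    · obtain ⟨c, hc, hz⟩ := cover_sq hs (by omega) hz
      obtain ⟨a, ha, ka, -⟩ := ht c hc
      obtain ⟨i, rfl⟩ := cs a ha
      refine mem_iUnion.2 ⟨i, ?_⟩
      rw [ft, (tri_eq_iff hs (gd i) (good_id c).1).2 ka]
      exact hz
  · intro i top a b z hz z1 z2 z3 z4
    change z ∈ f '' tri (v i) at hz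
    change 0 < cross (f (v i 0)) (f (v i 1)) (f (v i 2)) ↔ _
    obtain ⟨c, o1, o2⟩ := cell_of_key (gd i).isKey
    have kc : K (fun v => v) c = K φ (cell i) := Prod.ext o1 o2
    have bx := hf _ (cm i)
    have ox : (φ (cell i).o).1 = 2 * c.x + 1 := (congrArg Prod.fst o1).symm
    have oy : (φ (cell i).o).2 = 2 * c.y + 1 := (congrArg Prod.snd o1).symm
    obtain ⟨t, h1, kt, ext, w1, w2⟩ := ht c (by unfold Box at bx; unfold Rect; omega)
    rw [kc] at kt
    obtain ⟨j, rfl⟩ := cs t h1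
    have e : cell i = cell j := hv.inj _ _ (cm i) (cm j) kt.symm
      (le_antisymm (ext _ (cm i) kt.symm) (not_lt.1 (top j ((kk j i).2 kt))))
    rw [← e] at w1 w2
    rw [ft] at hz
    obtain ⟨b1, b2, b3, b4⟩ := tri_box hs (gd i) hz
    have k0 : (k : ℝ) ≠ 0 := by positivity
    have ck : (k : ℝ) / N / k = 2 * s := by rw [hs']; field_simp
    rw [ck] at z1 z2 z3 z4
    have y1 : (2 * a : ℤ) < (φ (cell i).o).1 + 1 := by
      have : (2 * a : ℝ) < (φ (cell i).o).1 + 1 := by nlinarith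
      exact_mod_cast this
    have y2 : (φ (cell i).o).1 - 1 < (2 * a + 2 : ℤ) := by
      have : ((φ (cell i).o).1 - 1 : ℝ) < 2 * a + 2 := by nlinarith
      exact_mod_cast this
    have y3 : (2 * b : ℤ) < (φ (cell i).o).2 + 1 := by
      have : (2 * b : ℝ) < (φ (cell i).o).2 + 1 := by nlinarith
      exact_mod_cast this
    have y4 : (φ (cell i).o).2 - 1 < (2 * b + 2 : ℤ) := by
      have : ((φ (cell i).o).2 - 1 : ℝ) < 2 * b + 2 := by nlinarith
      exact_mod_cast this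
    rw [fv, fv, fv, Nat.even_iff]
    by_cases p : (a + b) % 2 = 0
    · rw [(cross_vv s _ _).1 (w1 (by omega)) (gd i)]
      exact ⟨fun _ => p, fun _ => by positivity⟩
    · rw [(cross_vv s _ _).2 (w2 (by omega)) (gd i)]
      exact ⟨fun t => absurd t (by have : 0 < 2 * s ^ 2 := by positivity
                                   linarith), fun t => absurd t p⟩

/-- the `i`-th block of `k` bits of `T` -/
def lk (T k i : ℕ) : ℕ := Nat.mod (Nat.shiftRight T (Nat.mul k i)) (Nat.pow 2 k)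

noncomputable def all (n : ℕ) (f : ℕ → Bool) : Bool :=
  Nat.rec true (fun k ih => f k && ih) n

theorem all_sound {n : ℕ} {f : ℕ → Bool} (h : all n f = true) : ∀ k < n, f k = true := by
  induction n with
  | zero => intro k hk; omega
  | succ n ih =>
    have h' : (f n && all n f) = true := h
    rw [Bool.and_eq_true] at h'
    intro k hk
    rcases Nat.lt_succ_iff_lt_or_eq.1 hk with a | rfl
    exacts [ih h'.2 k a, h'.1]

noncomputable def all2 (A B : ℕ) (f : ℕ → Bool) : Bool :=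
  all A fun a => all B fun b => f (Nat.add (Nat.mul B a) b)

theorem all2_sound {A B : ℕ} {f : ℕ → Bool} (h : all2 A B f = true) (k : ℕ) (hk : k < B * A) :
    f k = true := by
  have hB : 0 < B := Nat.pos_of_ne_zero (by rintro rfl; simp at hk)
  have := all_sound (all_sound h (k / B) (Nat.div_lt_of_lt_mul hk)) (k % B) (Nat.mod_lt _ hB)
  have e : Nat.add (Nat.mul B (k / B)) (k % B) = k := Nat.div_add_mod k B
  rwa [e] at this

noncomputable def allD (f : Dir → Bool) : Bool := f .s && (f .e && (f .n && f .w))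

theorem allD_sound {f : Dir → Bool} (h : allD f = true) (d : Dir) : f d = true := by
  simp only [allD, Bool.and_eq_true] at h
  cases d
  exacts [h.1, h.2.1, h.2.2.1, h.2.2.2]

abbrev In (N : ℕ) (c : Cell) : Prop := 0 ≤ c.x ∧ c.x < N ∧ 0 ≤ c.y ∧ c.y < N

/-- all cells of the `N × N` grid -/
noncomputable def allC (N : ℕ) (f : Cell → Bool) : Bool :=
  all N fun y => all N fun x => allD fun d => f ⟨Int.ofNat x, Int.ofNat y, d⟩

theorem allC_sound {N : ℕ} {f : Cell → Bool} (h : allC N f = true) (c : Cell) (hc : In N c) :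
    f c = true := by
  obtain ⟨x, y, d⟩ := c
  obtain ⟨a1, a2, a3, a4⟩ := hc
  dsimp only at a1 a2 a3 a4
  have := allD_sound (all_sound (all_sound h y.toNat (by omega)) x.toNat (by omega)) d
  have e1 : Int.ofNat x.toNat = x := by simp only [Int.ofNat_eq_natCast]; omega
  have e2 : Int.ofNat y.toNat = y := by simp only [Int.ofNat_eq_natCast]; omega
  rwa [e1, e2] at this

structure Tab : Type where
  N : ℕ
  k : ℕ
  M : ℕ
  T : ℕ
  P : ℕ
  S : ℕ
  W : ℕ
  N0 : ℕ
  N1 : ℕ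
  N2 : ℕ
  U : ℕ
  R : ℕ

def dn : Dir → ℕ
  | .s => 0
  | .e => 1
  | .n => 2
  | .w => 3

def ix (c : Cell) : ℕ := 4 * (32 * c.y.toNat + c.x.toNat) + dn c.d

theorem ix_inj {N : ℕ} (hN : N ≤ 32) {c b : Cell} (hc : In N c) (hb : In N b) (e : ix c = ix b) :
    c = b := by
  obtain ⟨x, y, d⟩ := c
  obtain ⟨x', y', d'⟩ := b
  simp only [In, ix] at hc hb e
  cases d <;> cases d' <;> simp only [dn] at e <;>
    first | (exfalso; omega) | exact Cell.ext (by dsimp only; omega) (by dsimp only; omega) rfl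

def cl (n : ℕ) : Cell := ⟨(n / 4 % 32 : ℕ), (n / 128 : ℕ),
  if n % 4 = 0 then .s else if n % 4 = 1 then .e else if n % 4 = 2 then .n else .w⟩

def jj (n : ℕ) : ℕ := if n % 2 = 0 then 0 else if (n % 64 + n / 64) % 4 = 0 then 1 else 2

theorem jj_lt (n : ℕ) : jj n < 3 := by unfold jj; split_ifs <;> omega

namespace Tab

variable (D : Tab)

def tv (v : V) : ℕ := lk D.T 12 (65 * v.2.toNat + v.1.toNat)

def ph (v : V) : V := ((D.tv v % 64 : ℕ), (D.tv v / 64 : ℕ))

def ps (c : Cell) : ℕ := lk D.P 12 (ix c)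

def w (p : ℕ) : ℕ := lk D.W 12 p

def nn (j p : ℕ) : ℕ := lk (if j = 0 then D.N0 else if j = 1 then D.N1 else D.N2) 12 p

def cod (c : Cell) : ℕ := D.tv c.o + D.tv c.p + D.tv c.q

def ec (c : Cell) : Ed → ℕ
  | .g => D.tv c.p + D.tv c.q
  | .a => D.tv c.o + D.tv c.p
  | .b => D.tv c.o + D.tv c.q

abbrev WA (a b d : ℕ) : Prop :=
  d % 64 + b / 64 = a % 64 + a / 64 ∧ d / 64 + a % 64 = b % 64 + a / 64

abbrev BA (a b d : ℕ) : Prop :=
  d % 64 + a / 64 = b / 64 + a % 64 ∧ d / 64 + b % 64 = a % 64 + a / 64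

abbrev GA (k a b d : ℕ) : Prop := a % 64 % 2 = 1 ∧ a / 64 % 2 = 1 ∧ a % 64 ≤ 2 * k ∧
  a / 64 ≤ 2 * k ∧ (b % 64 = a % 64 + 1 ∨ b % 64 + 1 = a % 64) ∧
  (b / 64 = a / 64 + 1 ∨ b / 64 + 1 = a / 64) ∧ (WA a b d ∨ BA a b d)

abbrev PE (c : Cell) (e : Ed) : Prop :=
  D.nn (jj (D.ec c e)) (D.ps c) = if In D.N (c.nb e) then D.ps (c.nb e) else 0

abbrev PA (c : Cell) : Prop :=
  GA D.k (D.tv c.o) (D.tv c.p) (D.tv c.q) ∧ 0 < D.ps c ∧ D.ps c ≤ D.M ∧
    lk D.S 12 (D.ps c) = ix c ∧ D.w (D.ps c) = D.cod c ∧ D.PE c .g ∧ D.PE c .a ∧ D.PE c .b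

noncomputable def span (j p q : ℕ) : Bool :=
  all (q - (p + 1)) fun i => Nat.beq (D.nn j (p + 1 + i)) 0 ||
    (Nat.blt p (D.nn j (p + 1 + i)) && Nat.blt (D.nn j (p + 1 + i)) q)

noncomputable def ovr (j p q : ℕ) : Bool :=
  Nat.blt (D.w p) (D.w (p + 1 + lk D.R 6 p)) && all (lk D.R 6 p) fun i =>
    Nat.blt q (D.nn j (p + 1 + i)) || !Nat.beq (D.w (D.nn j (p + 1 + i))) (D.w q)

noncomputable def cB (j p : ℕ) : Bool :=
  if D.nn j p = 0 then true else
  if D.w (D.nn j p) = D.w p then D.span j p (D.nn j p) else D.ovr j p (D.nn j p)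

abbrev PT (c t : Cell) : Prop := In D.N t ∧
  (D.cod t : ℤ) = c.o.1 + (c.p.1 + c.q.1) + 64 * (c.o.2 + (c.p.2 + c.q.2)) ∧
  D.cod t < D.w (D.ps t + 1) ∧
  ((c.x + c.y) % 2 = 0 → WA (D.tv t.o) (D.tv t.p) (D.tv t.q)) ∧
  ((c.x + c.y) % 2 = 1 → BA (D.tv t.o) (D.tv t.p) (D.tv t.q))

/-- the facts checked on the tables -/
structure Ok : Prop where
  n : D.N ≤ 32 ∧ D.k ≤ 8 ∧ 0 < D.N ∧ 0 < D.k
  a : ∀ c, In D.N c → D.PA c
  m : ∀ p ≤ D.M, D.w p ≤ D.w (p + 1)
  b : ∀ j < 3, ∀ p ≤ D.M, D.cB j p = true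
  t : ∀ c, In D.k c → D.PT c (cl (lk D.U 12 (ix c)))

variable {D}

theorem Ok.good (k : D.Ok) {c : Cell} (hc : In D.N c) : Good D.ph c := by
  have := (k.a c hc).1
  simp only [Good, White, Black, ph]
  omega

theorem Ok.box (k : D.Ok) {c : Cell} (hc : In D.N c) :
    Box 0 (2 * D.k) 0 (2 * D.k) (D.ph c.o) := by
  have := (k.a c hc).1
  simp only [Box, ph]
  omega

theorem cod_eq (c : Cell) : (D.cod c : ℤ) =
    (K D.ph c).1.1 + (K D.ph c).2.1 + 64 * ((K D.ph c).1.2 + (K D.ph c).2.2) := by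
  simp only [cod, K, ph, Prod.fst_add, Prod.snd_add]
  omega

theorem key_ext {κ κ' : V × V} (h : IsKey κ) (h' : IsKey κ') (b : Box 0 16 0 16 κ.1)
    (b' : Box 0 16 0 16 κ'.1)
    (e : κ.1.1 + κ.2.1 + 64 * (κ.1.2 + κ.2.2) = κ'.1.1 + κ'.2.1 + 64 * (κ'.1.2 + κ'.2.2)) :
    κ = κ' := by
  obtain ⟨a1, a2, a3⟩ := h
  obtain ⟨c1, c2, c3⟩ := h'
  unfold Box at b b'
  have e1 : κ.1.1 + κ.2.1 = κ'.1.1 + κ'.2.1 := by omega
  have e2 : κ.1.2 + κ.2.2 = κ'.1.2 + κ'.2.2 := by omega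
  have e3 : κ.1.1 = κ'.1.1 := by omega
  have e4 : κ.1.2 = κ'.1.2 := by omega
  exact Prod.ext (Prod.ext e3 e4) (Prod.ext (by omega) (by omega))

theorem Ok.box' (k : D.Ok) {c : Cell} (hc : In D.N c) : Box 0 16 0 16 (K D.ph c).1 := by
  have := k.box hc
  have := k.n
  simp only [Box, K] at *
  omega

theorem Ok.kc (k : D.Ok) {c b : Cell} (hc : In D.N c) (hb : In D.N b) :
    K D.ph c = K D.ph b ↔ D.cod c = D.cod b := by
  have e1 := cod_eq (D := D) c
  have e2 := cod_eq (D := D) b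
  refine ⟨fun h => by rw [h] at e1; omega, fun h => ?_⟩
  exact key_ext (k.good hc).isKey (k.good hb).isKey (k.box' hc) (k.box' hb) (by omega)

theorem ec_eq {c b : Cell} {e f : Ed} (h : eps D.ph c e = eps D.ph b f) : D.ec c e = D.ec b f := by
  cases e <;> cases f <;>
    simp only [eps, ph, ec, Prod.mk_add_mk, Prod.mk.injEq] at h ⊢ <;> omega

theorem Ok.mono (k : D.Ok) {p q : ℕ} (h : p ≤ q) (hq : q ≤ D.M + 1) : D.w p ≤ D.w q := by
  induction q with
  | zero => rw [Nat.le_zero.1 h]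
  | succ q ih =>
    have := k.m q (by omega)
    rcases h.lt_or_eq with a | rfl
    · exact (ih (by omega) (by omega)).trans this
    · exact le_rfl

theorem Ok.pe (k : D.Ok) {c : Cell} (hc : In D.N c) (e : Ed) : D.PE c e := by
  obtain ⟨-, -, -, -, -, h1, h2, h3⟩ := k.a c hc
  cases e
  exacts [h1, h2, h3]

theorem Ok.valid (k : D.Ok) : Valid (Rect 0 D.N 0 D.N) D.ph D.ps where
  good := fun c hc => k.good hc
  inj := fun c b hc hb _ h => by
    apply ix_inj k.n.1 hc hb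
    rw [← (k.a c hc).2.2.2.1, ← (k.a b hb).2.2.2.1, h]
  taco := fun c e b f h1 h2 h3 h4 he k1 k2 l1 l2 => by
    rw [k.kc h2 h1] at k1
    rw [k.kc h4 h1]
    have p1 := k.pe h1 e
    have p2 := k.pe h3 f
    unfold PE at p1 p2
    rw [if_pos (show In D.N _ from h2)] at p1
    rw [← ec_eq he, if_pos (show In D.N _ from h4)] at p2
    obtain ⟨-, -, b1, -, w1, -⟩ := k.a _ h1
    obtain ⟨-, a2, b2, -, w2, -⟩ := k.a _ h2
    obtain ⟨-, a4, b4, -, w4, -⟩ := k.a _ h4
    have hb := k.b _ (jj_lt (D.ec c e)) _ b1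
    unfold cB at hb
    rw [p1, if_neg (by omega), if_pos (by omega)] at hb
    have s := all_sound hb (D.ps b - (D.ps c + 1)) (by omega)
    rw [show D.ps c + 1 + (D.ps b - (D.ps c + 1)) = D.ps b by omega, p2, Bool.or_eq_true,
      Bool.and_eq_true, Nat.blt_eq, Nat.blt_eq, Nat.beq_eq] at s
    have s := s.resolve_left (by omega)
    have m1 := k.mono s.1.le (by omega)
    have m2 := k.mono s.2.le (by omega)
    exact ⟨by omega, s⟩
  tort := fun c e b f h1 h2 h3 h4 he k1 k2 k3 l => by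
    rw [Ne, k.kc h2 h1] at k1
    rw [k.kc h3 h1] at k2
    rw [k.kc h4 h2] at k3
    have p1 := k.pe h1 e
    have p2 := k.pe h3 f
    unfold PE at p1 p2
    rw [if_pos (show In D.N _ from h2)] at p1
    rw [← ec_eq he, if_pos (show In D.N _ from h4)] at p2
    obtain ⟨-, -, b1, -, w1, -⟩ := k.a _ h1
    obtain ⟨-, a2, b2, -, w2, -⟩ := k.a _ h2
    obtain ⟨-, -, b3, -, w3, -⟩ := k.a _ h3
    obtain ⟨-, a4, b4, -, w4, -⟩ := k.a _ h4
    have hb := k.b _ (jj_lt (D.ec c e)) _ b1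
    unfold cB at hb
    rw [p1, if_neg (by omega), if_neg (by omega)] at hb
    unfold ovr at hb
    rw [Bool.and_eq_true, Nat.blt_eq] at hb
    have u : D.ps b < D.ps c + 1 + lk D.R 6 (D.ps c) := by
      by_contra u
      have m1 := k.mono (not_lt.1 u) (by omega)
      omega
    have s := all_sound hb.2 (D.ps b - (D.ps c + 1)) (by omega)
    rw [show D.ps c + 1 + (D.ps b - (D.ps c + 1)) = D.ps b by omega, p2, Bool.or_eq_true,
      Nat.blt_eq, Bool.not_eq_true', ← Bool.not_eq_true, Nat.beq_eq] at s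
    omega

theorem Ok.board (k : D.Ok) : ∃ F : FlatFolding, F.Checkerboard D.k (D.k / (D.N : ℤ)) := by
  have n := k.n
  refine bridge (by omega) n.2.2.2 k.valid (fun c hc => k.box hc) fun c hc => ?_
  obtain ⟨h1, h2, h3, h4, h5⟩ := k.t c hc
  generalize cl (lk D.U 12 (ix c)) = t at *
  refine ⟨t, h1, ?_, fun b hb e => ?_, fun p => ?_, fun p => ?_⟩
  · refine key_ext (k.good h1).isKey (good_id c).1.isKey (k.box' h1) ?_ ?_
    · have := (vert_bounds hc).1
      simp only [Box, K]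
      omega
    · rw [← cod_eq, h2]
      simp only [K, Prod.fst_add, Prod.snd_add]
  · rw [k.kc hb h1] at e
    obtain ⟨-, -, b1, -, w1, -⟩ := k.a _ hb
    by_contra u
    have := k.mono (Nat.succ_le_of_lt (not_le.1 u)) (by omega)
    simp only [Nat.succ_eq_add_one] at this
    omega
  · have := h4 p
    simp only [White, ph]
    omega
  · have := h5 p
    simp only [Black, ph]
    omega

/-- the five checks, as Boolean computations -/
theorem ok_of (D : Tab) {A B : ℕ} (h0 : D.N ≤ 32 ∧ D.k ≤ 8 ∧ 0 < D.N ∧ 0 < D.k ∧ D.M < B * A)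
    (ha : allC D.N (fun c => decide (D.PA c)) = true)
    (hm : all2 A B (fun p => Nat.ble (D.w p) (D.w (p + 1))) = true)
    (h1 : all2 A B (D.cB 0) = true) (h2 : all2 A B (D.cB 1) = true)
    (h3 : all2 A B (D.cB 2) = true)
    (ht : allC D.k (fun c => decide (D.PT c (cl (lk D.U 12 (ix c))))) = true) : D.Ok where
  n := by omega
  a := fun c hc => of_decide_eq_true (allC_sound ha c hc)
  m := fun p hp => by
    have := all2_sound hm p (by omega)
    rwa [Nat.ble_eq] at this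
  b := fun j hj p hp => by
    obtain rfl | rfl | rfl : j = 0 ∨ j = 1 ∨ j = 2 := by omega
    exacts [all2_sound h1 p (by omega), all2_sound h2 p (by omega), all2_sound h3 p (by omega)]
  t := fun c hc => of_decide_eq_true (allC_sound ht c hc)

end Tab

end Pool.Agent.MP_3b5bbf_co.Sb
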